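import Pool.Agent.T9h54.FF.Spec2

/-!
# Project FF, leaf (SV): the sieve

The numbers `m = 1 + W k`, `k < N`, with `W = D!`: the divisors `d > 1` of `m` are larger than `D`, and `d` divides at
most `N / d + 1` of the `m`. So the sum of `∑_{d | m} w d` over these `m` is at most
`2 N ∑_{D < d} w d / d + W N ∑_{N < d} w d / d`, which is less than `N / 2` if `D` and `N` are large, and at least
half of the `m` satisfy `∑_{d | m} w d < 1`.
-/

set_option autoImplicit false

namespace Pool.Agent.T9h51.FF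

open Finset Pool.Agent.T9h54.FF

/-- small tails of a summable series -/
theorem sv_tail (f : ℕ → ℝ) (hf : Summable f) (ε : ℝ) (hε : 0 < ε) :
    ∃ D : ℕ, ∀ t : Finset ℕ, (∀ d ∈ t, D < d) → ∑ i ∈ t, f i < ε := by
  obtain ⟨s, hs⟩ := (summable_iff_vanishing_norm.mp hf) ε hε
  refine ⟨s.sup id, fun t ht => ?_⟩
  have hdis : Disjoint t s := by
    rw [Finset.disjoint_left]
    intro d hd hds
    have h1 : d ≤ s.sup id := Finset.le_sup (f := id) hds
    exact absurd (ht d hd) (by omega)
  exact lt_of_le_of_lt (Real.le_norm_self _) (hs t hdis)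

/-- at most `N / d + 1` of the numbers `1 + W k`, `k < N`, are divisible by `d` -/
theorem sv_count (W N d : ℕ) (hd : 0 < d) :
    ((range N).filter (fun k => d ∣ 1 + W * k)).card ≤ N / d + 1 := by
  have hmap : ∀ k ∈ (range N).filter (fun k => d ∣ 1 + W * k), k / d ∈ range (N / d + 1) := by
    intro k hk
    rw [mem_filter, mem_range] at hk
    rw [mem_range]
    exact Nat.lt_succ_of_le (Nat.div_le_div_right hk.1.le)
  have hinj : Set.InjOn (fun k : ℕ => k / d) ((range N).filter (fun k => d ∣ 1 + W * k) : Finset ℕ) := by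
    intro k hk k' hk' hkk
    rw [mem_coe, mem_filter] at hk hk'
    have hcop : Nat.Coprime d W := by
      rw [Nat.coprime_iff_gcd_eq_one]
      have h1 : Nat.gcd d W ∣ 1 + W * k := (Nat.gcd_dvd_left d W).trans hk.2
      have h2 : Nat.gcd d W ∣ W * k := (Nat.gcd_dvd_right d W).mul_right k
      exact Nat.dvd_one.mp ((Nat.dvd_add_left h2).mp h1)
    have hmod : W * k ≡ W * k' [MOD d] := by
      have h1 : 1 + W * k ≡ 0 [MOD d] := (Nat.modEq_zero_iff_dvd).mpr hk.2
      have h2 : 1 + W * k' ≡ 0 [MOD d] := (Nat.modEq_zero_iff_dvd).mpr hk'.2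
      exact Nat.ModEq.add_left_cancel' 1 (h1.trans h2.symm)
    have hmod' : k ≡ k' [MOD d] := Nat.ModEq.cancel_left_of_coprime hcop hmod
    have e1 := Nat.div_add_mod k d
    have e2 := Nat.div_add_mod k' d
    have e3 : k % d = k' % d := hmod'
    have e4 : k / d = k' / d := hkk
    rw [← e1, ← e2, e3, e4]
  calc ((range N).filter (fun k => d ∣ 1 + W * k)).card
      ≤ (range (N / d + 1)).card := Finset.card_le_card_of_injOn _ hmap hinj
    _ = N / d + 1 := card_range _

/-- the divisors larger than `1` of `1 + W k` are larger than `D`, if `W = D!` -/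
theorem sv_big (D k d : ℕ) (hd : d ∣ 1 + D.factorial * k) (hd1 : d ≠ 1) : D < d := by
  by_contra hlt
  push Not at hlt
  have hd0 : 0 < d := Nat.pos_of_dvd_of_pos hd (by omega)
  have h1 : d ∣ D.factorial := Nat.dvd_factorial hd0 hlt
  have h2 : d ∣ D.factorial * k := h1.mul_right k
  exact hd1 (Nat.dvd_one.mp ((Nat.dvd_add_left h2).mp hd))

/-- the mean value of `∑_{d | m} w d` over `m = 1 + W k`, `k < N` -/
theorem sv_mean (w : ℕ → ℝ) (hw : ∀ d, 0 ≤ w d) (hw1 : w 1 = 0) (D N : ℕ) (ε₁ ε₂ : ℝ)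
    (h1 : ∀ t : Finset ℕ, (∀ d ∈ t, D < d) → ∑ d ∈ t, w d / d ≤ ε₁)
    (h2 : ∀ t : Finset ℕ, (∀ d ∈ t, N < d) → ∑ d ∈ t, w d / d ≤ ε₂) :
    ∑ k ∈ range N, ∑ d ∈ (1 + D.factorial * k).divisors, w d ≤
      2 * N * ε₁ + D.factorial * N * ε₂ := by
  classical
  set W := D.factorial with hW
  have hW0 : 0 < W := Nat.factorial_pos D
  set T := Finset.Ioc D (W * N) with hT
  have step1 : ∀ k ∈ range N, ∑ d ∈ (1 + W * k).divisors, w d ≤
      ∑ d ∈ T, if d ∣ 1 + W * k then w d else 0 := by
    intro k hk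
    rw [mem_range] at hk
    rw [← Finset.sum_filter]
    have e : ∑ d ∈ (1 + W * k).divisors, w d = ∑ d ∈ (1 + W * k).divisors.erase 1, w d := by
      rw [← Finset.add_sum_erase _ _ (show 1 ∈ (1 + W * k).divisors from by simp), hw1, zero_add]
    rw [e]
    apply Finset.sum_le_sum_of_subset_of_nonneg
    · intro d hd
      rw [mem_erase, Nat.mem_divisors] at hd
      rw [mem_filter, hT, mem_Ioc]
      refine ⟨⟨sv_big D k d hd.2.1 hd.1, ?_⟩, hd.2.1⟩
      have h3 : d ≤ 1 + W * k := Nat.le_of_dvd (by omega) hd.2.1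
      have h4 : W * (k + 1) ≤ W * N := Nat.mul_le_mul_left W hk
      rw [Nat.mul_succ] at h4
      omega
    · intro d _ _
      exact hw d
  have step2 : ∑ k ∈ range N, ∑ d ∈ (1 + W * k).divisors, w d ≤
      ∑ d ∈ T, w d * (((range N).filter (fun k => d ∣ 1 + W * k)).card : ℝ) := by
    refine (Finset.sum_le_sum step1).trans ?_
    rw [Finset.sum_comm]
    refine Finset.sum_le_sum fun d _ => ?_
    rw [← Finset.sum_filter, Finset.sum_const, nsmul_eq_mul, mul_comm]
  have step3 : ∀ d ∈ T, w d * (((range N).filter (fun k => d ∣ 1 + W * k)).card : ℝ) ≤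
      (if d ≤ N then 2 * N * (w d / d) else 0) + (if N < d then W * N * (w d / d) else 0) := by
    intro d hd
    rw [hT, mem_Ioc] at hd
    have hd0 : 0 < d := by omega
    have hdR : (0 : ℝ) < d := by exact_mod_cast hd0
    have hc := sv_count W N d hd0
    have hcR : (((range N).filter (fun k => d ∣ 1 + W * k)).card : ℝ) ≤ ((N / d : ℕ) : ℝ) + 1 := by
      exact_mod_cast hc
    by_cases hdN : d ≤ N
    · rw [if_pos hdN, if_neg (by omega), add_zero]
      have h5 : ((N / d : ℕ) : ℝ) ≤ (N : ℝ) / d := Nat.cast_div_le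
      have h6 : (1 : ℝ) ≤ (N : ℝ) / d := by
        rw [le_div_iff₀ hdR, one_mul]
        exact_mod_cast hdN
      have h7 : (((range N).filter (fun k => d ∣ 1 + W * k)).card : ℝ) ≤ 2 * ((N : ℝ) / d) := by linarith
      calc w d * (((range N).filter (fun k => d ∣ 1 + W * k)).card : ℝ)
          ≤ w d * (2 * ((N : ℝ) / d)) := mul_le_mul_of_nonneg_left h7 (hw d)
        _ = 2 * N * (w d / d) := by ring
    · rw [if_neg hdN, if_pos (by omega), zero_add]
      have h5 : N / d = 0 := Nat.div_eq_of_lt (by omega)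
      rw [h5] at hcR
      have h6 : (((range N).filter (fun k => d ∣ 1 + W * k)).card : ℝ) ≤ (W : ℝ) * N / d := by
        rw [le_div_iff₀ hdR]
        have h7 : (d : ℝ) ≤ (W : ℝ) * N := by exact_mod_cast hd.2
        have h8 : (((range N).filter (fun k => d ∣ 1 + W * k)).card : ℝ) ≤ 1 := by
          simpa using hcR
        nlinarith
      calc w d * (((range N).filter (fun k => d ∣ 1 + W * k)).card : ℝ)
          ≤ w d * ((W : ℝ) * N / d) := mul_le_mul_of_nonneg_left h6 (hw d)
        _ = W * N * (w d / d) := by ring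
  refine step2.trans ((Finset.sum_le_sum step3).trans ?_)
  rw [Finset.sum_add_distrib, ← Finset.sum_filter, ← Finset.sum_filter, ← Finset.mul_sum, ← Finset.mul_sum]
  refine add_le_add ?_ ?_
  · refine mul_le_mul_of_nonneg_left (h1 _ fun d hd => ?_) (by positivity)
    rw [mem_filter, hT, mem_Ioc] at hd
    exact hd.1.1
  · refine mul_le_mul_of_nonneg_left (h2 _ fun d hd => ?_) (by positivity)
    rw [mem_filter] at hd
    exact hd.2

theorem sv : S_SV := by
  classical
  intro w hw hw1 hsum K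
  obtain ⟨D₀, hD₀⟩ := sv_tail _ hsum (1 / 8) (by norm_num)
  set D := max D₀ K with hD
  set W := D.factorial with hW
  have hW0 : 0 < W := Nat.factorial_pos D
  have hWR : (0 : ℝ) < W := by exact_mod_cast hW0
  obtain ⟨N₀, hN₀⟩ := sv_tail _ hsum (1 / (8 * W)) (by positivity)
  refine ⟨1 / (4 * W), by positivity, W * (N₀ + 2), fun x hx => ?_⟩
  set N := x / W with hN
  have hNN : N₀ + 2 ≤ N := (Nat.le_div_iff_mul_le hW0).mpr (by rw [mul_comm]; exact hx)
  have hmean := sv_mean w hw hw1 D N (1 / 8) (1 / (8 * W))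
    (fun t ht => (hD₀ t fun d hd => lt_of_le_of_lt (le_max_left _ _) (ht d hd)).le)
    (fun t ht => (hN₀ t fun d hd => lt_of_le_of_lt (by omega) (ht d hd)).le)
  have hmean' : ∑ k ∈ range N, ∑ d ∈ (1 + W * k).divisors, w d ≤ (N : ℝ) / 2 := by
    refine hmean.trans ?_
    have e : (W : ℝ) * N * (1 / (8 * W)) = N / 8 := by field_simp
    rw [e]
    have : (0 : ℝ) ≤ N := Nat.cast_nonneg N
    linarith
  set G := (range N).filter (fun k => ∑ d ∈ (1 + W * k).divisors, w d < 1) with hG
  set B := (range N).filter (fun k => ¬ ∑ d ∈ (1 + W * k).divisors, w d < 1) with hB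
  have hGB : G.card + B.card = N := by
    rw [hG, hB, Finset.card_filter_add_card_filter_not, card_range]
  have hBc : (B.card : ℝ) ≤ N / 2 := by
    refine le_trans ?_ hmean'
    calc (B.card : ℝ) = ∑ k ∈ B, (1 : ℝ) := by simp
      _ ≤ ∑ k ∈ B, ∑ d ∈ (1 + W * k).divisors, w d := by
          refine Finset.sum_le_sum fun k hk => ?_
          rw [hB, mem_filter] at hk
          exact not_lt.mp hk.2
      _ ≤ ∑ k ∈ range N, ∑ d ∈ (1 + W * k).divisors, w d := by
          refine Finset.sum_le_sum_of_subset_of_nonneg (Finset.filter_subset _ _) fun k _ _ => ?_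
          exact Finset.sum_nonneg fun d _ => hw d
  have hGc : (N : ℝ) / 2 ≤ G.card := by
    have : (G.card : ℝ) + B.card = N := by exact_mod_cast hGB
    linarith
  have hinj : Set.InjOn (fun k : ℕ => 1 + W * k) (G : Set ℕ) := by
    intro k _ k' _ hkk
    have h1 : 1 + W * k = 1 + W * k' := hkk
    have h2 : W * k = W * k' := by omega
    exact Nat.eq_of_mul_eq_mul_left hW0 h2
  refine ⟨G.image (fun k => 1 + W * k), ?_, ?_⟩
  · rw [Finset.card_image_of_injOn hinj]
    refine le_trans ?_ hGc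
    have h1 : (x : ℝ) < (N + 1) * W := by
      have h2 : x < (N + 1) * W := by
        exact (Nat.div_lt_iff_lt_mul hW0).mp (Nat.lt_succ_self N)
      exact_mod_cast h2
    have h3 : (2 : ℝ) ≤ N := by
      have : 2 ≤ N := by omega
      exact_mod_cast this
    rw [div_mul_eq_mul_div, one_mul, div_le_div_iff₀ (by positivity) (by norm_num)]
    nlinarith
  · intro m hm
    rw [mem_image] at hm
    obtain ⟨k, hk, rfl⟩ := hm
    rw [hG, mem_filter, mem_range] at hk
    refine ⟨by omega, ?_, ?_, hk.2⟩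
    · have h4 : W * (k + 1) ≤ W * N := Nat.mul_le_mul_left W hk.1
      have h5 : W * N ≤ x := Nat.mul_div_le x W
      rw [Nat.mul_succ] at h4
      omega
    · intro p hp hpm
      exact lt_of_le_of_lt (le_max_right D₀ K) (sv_big D k p hpm hp.one_lt.ne')

end Pool.Agent.T9h51.FF

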